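import Pool.Agent.Helper12_TRN.Stmts

set_option autoImplicit false

/-! Squad TREN, module CNV: conversion of a tree network into a network indexed by addresses. -/

namespace Pool.Agent.TRN.H19

open Pool.Agent.UO Pool.Agent.TRN Pool.Agent.TRN.Tree

noncomputable section

variable {E : Type*} [Field E] {N r : ℕ}

/-- The leaf used to fill up. -/
def one : Tree E N r := leaf fun _ => 1

/-- The subtree at an address; below a leaf there is `one`. -/
def sub : Tree E N r → List Bool → Tree E N r
  | t, [] => t
  | leaf _, _ :: _ => one
  | node _ L R, b :: ξ => if b = true then sub R ξ else sub L ξ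

/-- The height. -/
def ht : Tree E N r → ℕ
  | leaf _ => 1
  | node _ L R => max (ht L) (ht R) + 1

/-- The tensor of the root of a tree. -/
def rt (a₀ : Fin r) : Tree E N r → (Fin N → E) → Tens E r
  | leaf v, _ => fun c a b => if a = a₀ ∧ b = a₀ then v c else 0
  | node T _ _, y => fun c a b => MvPolynomial.eval y (T c a b)

/-- The variables of the root of a tree. -/
def rv : Tree E N r → Finset (Fin N)
  | leaf _ => ∅
  | node T _ _ => tvars T

/-- The addresses of the vertices containing a variable. -/
def adr (i : Fin N) : Tree E N r → Finset (List Bool)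
  | leaf _ => ∅
  | node T L R => (if i ∈ tvars T then {[]} else ∅) ∪
      ((adr i L).image (List.cons false) ∪ (adr i R).image (List.cons true))

theorem sub_nil (t : Tree E N r) : sub t [] = t := by
  cases t <;> rfl

theorem sub_one (ξ : List Bool) : sub (one : Tree E N r) ξ = one := by
  cases ξ <;> rfl

theorem sub_append (t : Tree E N r) (η ξ : List Bool) : sub t (η ++ ξ) = sub (sub t η) ξ := by
  induction η generalizing t with
  | nil => rw [List.nil_append, sub_nil]
  | cons b η ih =>
    cases t with
    | leaf v => exact (sub_one ξ).symm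
    | node T L R =>
      show (if b = true then sub R (η ++ ξ) else sub L (η ++ ξ)) =
        sub (if b = true then sub R η else sub L η) ξ
      split_ifs
      · exact ih R
      · exact ih L

theorem one_le_ht (t : Tree E N r) : 1 ≤ ht t := by
  cases t with
  | leaf v => exact le_rfl
  | node T L R => exact Nat.le_add_left 1 _

/-- The messages are the values. -/
theorem msg_eq (a₀ : Fin r) (t : Tree E N r) (y : Fin N → E) (m : ℕ) : ∀ η : List Bool,
    (sub t η = one ∨ ht (sub t η) ≤ m) →
    ∀ c, msg (fun _ => 1) (fun ξ => rt a₀ (sub t ξ) y) m η c =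
      MvPolynomial.eval y ((sub t η).val c) := by
  induction m with
  | zero =>
    intro η h c
    rcases h with h | h
    · rw [h]
      show (1 : E) = MvPolynomial.eval y (MvPolynomial.C 1)
      rw [MvPolynomial.eval_C]
    · exact absurd (one_le_ht (sub t η)) (by omega)
  | succ m ih =>
    intro η h c
    show (∑ a, ∑ b, rt a₀ (sub t η) y c a b *
      (msg (fun _ => 1) (fun ξ => rt a₀ (sub t ξ) y) m (η ++ [false]) a *
        msg (fun _ => 1) (fun ξ => rt a₀ (sub t ξ) y) m (η ++ [true]) b)) = _
    have hs : ∀ b, sub t (η ++ [b]) = sub (sub t η) [b] := fun b => sub_append t η [b]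
    cases hst : sub t η with
    | leaf v =>
      have h1 : ∀ b, sub t (η ++ [b]) = one := fun b => by rw [hs, hst]; rfl
      have h2 : ∀ b a, msg (fun _ => 1) (fun ξ => rt a₀ (sub t ξ) y) m (η ++ [b]) a = 1 := by
        intro b a
        rw [ih _ (Or.inl (h1 b)), h1]
        show MvPolynomial.eval y (MvPolynomial.C 1) = 1
        rw [MvPolynomial.eval_C]
      simp only [h2, mul_one]
      show (∑ a, ∑ b, if a = a₀ ∧ b = a₀ then v c else 0) =
        MvPolynomial.eval y (MvPolynomial.C (v c))
      rw [MvPolynomial.eval_C, Finset.sum_eq_single a₀, Finset.sum_eq_single a₀]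
      · rw [if_pos ⟨rfl, rfl⟩]
      · intro b _ hb
        rw [if_neg fun h => hb h.2]
      · intro h
        exact absurd (Finset.mem_univ _) h
      · intro a _ ha
        apply Finset.sum_eq_zero
        intro b _
        rw [if_neg fun h => ha h.1]
      · intro h
        exact absurd (Finset.mem_univ _) h
    | node T L R =>
      have hh : ht (node T L R) ≤ m + 1 := by
        rcases h with h | h
        · rw [hst] at h
          exact absurd h (by intro h'; cases h')
        · rwa [hst] at h
      have hh' : max (ht L) (ht R) + 1 ≤ m + 1 := hh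
      have hL : sub t (η ++ [false]) = L := by
        rw [hs, hst]
        exact sub_nil L
      have hR : sub t (η ++ [true]) = R := by
        rw [hs, hst]
        exact sub_nil R
      have h1 : ∀ a, msg (fun _ => 1) (fun ξ => rt a₀ (sub t ξ) y) m (η ++ [false]) a =
          MvPolynomial.eval y (L.val a) := by
        intro a
        rw [ih _ (Or.inr (by rw [hL]; exact (le_max_left _ _).trans (Nat.le_of_succ_le_succ hh'))),
          hL]
      have h2 : ∀ a, msg (fun _ => 1) (fun ξ => rt a₀ (sub t ξ) y) m (η ++ [true]) a =
          MvPolynomial.eval y (R.val a) := by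
        intro a
        rw [ih _ (Or.inr (by rw [hR]; exact (le_max_right _ _).trans (Nat.le_of_succ_le_succ hh'))),
          hR]
      simp only [h1, h2]
      show (∑ a, ∑ b, MvPolynomial.eval y (T c a b) *
        (MvPolynomial.eval y (L.val a) * MvPolynomial.eval y (R.val b))) =
        MvPolynomial.eval y (∑ a, ∑ b, T c a b * (L.val a * R.val b))
      rw [map_sum]
      apply Finset.sum_congr rfl
      intro a _
      rw [map_sum]
      apply Finset.sum_congr rfl
      intro b _
      rw [map_mul, map_mul]

theorem adr_card (i : Fin N) (t : Tree E N r) :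
    (adr i t).card ≤ t.nodes.countP (fun V => decide (i ∈ V)) := by
  induction t with
  | leaf v => exact Nat.zero_le _
  | node T L R ihL ihR =>
    have h1 : (adr i (node T L R)).card ≤ (if i ∈ tvars T then 1 else 0) +
        ((adr i L).card + (adr i R).card) := by
      refine (Finset.card_union_le _ _).trans (Nat.add_le_add ?_ ?_)
      · split_ifs
        · exact le_of_eq (Finset.card_singleton _)
        · exact le_of_eq Finset.card_empty
      · exact (Finset.card_union_le _ _).trans
          (Nat.add_le_add Finset.card_image_le Finset.card_image_le)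
    have h2 : (node T L R).nodes.countP (fun V => decide (i ∈ V)) =
        (L.nodes.countP (fun V => decide (i ∈ V)) + R.nodes.countP (fun V => decide (i ∈ V))) +
          (if i ∈ tvars T then 1 else 0) := by
      show (tvars T :: (L.nodes ++ R.nodes)).countP _ = _
      rw [List.countP_cons, List.countP_append]
      by_cases h : i ∈ tvars T
      · rw [if_pos h, if_pos (by simpa using h)]
      · rw [if_neg h, if_neg (by simpa using h)]
    rw [h2]
    omega

theorem mem_adr (i : Fin N) (t : Tree E N r) : ∀ ξ, i ∈ rv (sub t ξ) → ξ ∈ adr i t := by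
  induction t with
  | leaf v =>
    intro ξ h
    cases ξ with
    | nil => exact absurd h (Finset.notMem_empty i)
    | cons b ξ => exact absurd h (Finset.notMem_empty i)
  | node T L R ihL ihR =>
    intro ξ h
    cases ξ with
    | nil =>
      have h' : i ∈ tvars T := h
      show [] ∈ (if i ∈ tvars T then {[]} else ∅) ∪ _
      rw [if_pos h']
      exact Finset.mem_union_left _ (Finset.mem_singleton_self _)
    | cons b ξ =>
      have h' : i ∈ rv (if b = true then sub R ξ else sub L ξ) := h
      apply Finset.mem_union_right
      cases b with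
      | false => exact Finset.mem_union_left _ (Finset.mem_image_of_mem _ (ihL ξ h'))
      | true => exact Finset.mem_union_right _ (Finset.mem_image_of_mem _ (ihR ξ h'))

theorem rv_mem (t : Tree E N r) : ∀ ξ, rv (sub t ξ) = ∅ ∨ rv (sub t ξ) ∈ t.nodes := by
  induction t with
  | leaf v =>
    intro ξ
    cases ξ with
    | nil => exact Or.inl rfl
    | cons b ξ => exact Or.inl rfl
  | node T L R ihL ihR =>
    intro ξ
    cases ξ with
    | nil => exact Or.inr List.mem_cons_self
    | cons b ξ =>
      cases b with
      | false =>
        rcases ihL ξ with h | h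
        · exact Or.inl h
        · exact Or.inr (List.mem_cons_of_mem _ (List.mem_append_left _ h))
      | true =>
        rcases ihR ξ with h | h
        · exact Or.inl h
        · exact Or.inr (List.mem_cons_of_mem _ (List.mem_append_right _ h))

theorem rank_one : (one : Tree E N r).rank = 0 := rfl

theorem rank_sub (t : Tree E N r) (b : Bool) : (sub t [b]).rank ≤ t.rank := by
  cases t with
  | leaf v => exact Nat.zero_le _
  | node T L R =>
    have h : (node T L R).rank = if L.rank = R.rank then
        (if L.rank = 0 ∧ tvars T = ∅ then 0 else L.rank + 1) else max L.rank R.rank := rfl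
    have hsub : (sub (node T L R) [b]).rank ≤ max L.rank R.rank := by
      cases b with
      | false =>
        show (sub L []).rank ≤ _
        rw [sub_nil]
        exact le_max_left _ _
      | true =>
        show (sub R []).rank ≤ _
        rw [sub_nil]
        exact le_max_right _ _
    rw [h]
    split_ifs with h1 h2
    · rw [← h1, h2.1, max_self] at hsub
      exact hsub
    · rw [← h1, max_self] at hsub
      omega
    · exact hsub

theorem rank_lt (t : Tree E N r) : t.rank = 0 ∨ (sub t [false]).rank < t.rank ∨
    (sub t [true]).rank < t.rank := by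
  cases t with
  | leaf v => exact Or.inl rfl
  | node T L R =>
    have h : (node T L R).rank = if L.rank = R.rank then
        (if L.rank = 0 ∧ tvars T = ∅ then 0 else L.rank + 1) else max L.rank R.rank := rfl
    have hL : (sub (node T L R) [false]).rank = L.rank := by
      show (sub L []).rank = _
      rw [sub_nil]
    have hR : (sub (node T L R) [true]).rank = R.rank := by
      show (sub R []).rank = _
      rw [sub_nil]
    rw [hL, hR, h]
    split_ifs with h1 h2
    · exact Or.inl rfl
    · right
      left
      omega
    · right
      rcases lt_or_gt_of_ne h1 with h3 | h3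
      · left
        exact lt_of_lt_of_le h3 (le_max_right _ _)
      · right
        exact lt_of_lt_of_le h3 (le_max_left _ _)

theorem rank_zero (t : Tree E N r) (h0 : t.rank = 0) : rv t = ∅ := by
  cases t with
  | leaf v => rfl
  | node T L R =>
    have h : (node T L R).rank = if L.rank = R.rank then
        (if L.rank = 0 ∧ tvars T = ∅ then 0 else L.rank + 1) else max L.rank R.rank := rfl
    rw [h] at h0
    split_ifs at h0 with h1 h2
    · exact h2.2
    · omega

theorem rt_dep (a₀ : Fin r) (t : Tree E N r) (y y' : Fin N → E) (h : ∀ i ∈ rv t, y i = y' i) :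
    rt a₀ t y = rt a₀ t y' := by
  cases t with
  | leaf v => rfl
  | node T L R =>
    funext c a b
    show MvPolynomial.eval y (T c a b) = MvPolynomial.eval y' (T c a b)
    apply MvPolynomial.eval₂Hom_congr' rfl _ rfl
    intro i hi _
    apply h
    show i ∈ tvars T
    unfold tvars
    exact Finset.mem_biUnion.2 ⟨c, Finset.mem_univ _, Finset.mem_biUnion.2 ⟨a, Finset.mem_univ _,
      Finset.mem_biUnion.2 ⟨b, Finset.mem_univ _, hi⟩⟩⟩

theorem rt_poly (a₀ : Fin r) (t : Tree E N r) (c a b : Fin r) :
    IsPoly (fun y => rt a₀ t y c a b) := by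
  cases t with
  | leaf v => exact UO.IsPoly.const _
  | node T L R => exact ⟨T c a b, fun y => rfl⟩

end

/-- CNV. -/
theorem cnv : CnvStmt := by
  intro E _ N r k q hr t hq hk
  let a₀ : Fin r := ⟨0, hr⟩
  refine ⟨⟨ht t, fun _ => 1, fun ξ y => rt a₀ (sub t ξ) y, fun ξ => rv (sub t ξ),
    fun ξ c a b => rt_poly a₀ _ c a b, fun ξ y y' h => rt_dep a₀ _ y y' h⟩,
    fun i => adr i t, fun ξ => (sub t ξ).rank, ⟨?_, ?_, ?_⟩, ?_, ?_, ?_, ?_, ?_⟩
  · intro i
    exact (adr_card i t).trans (hk i)
  · intro i ξ _ h
    exact mem_adr i t ξ h
  · intro ξ
    show (rv (sub t ξ)).card ≤ q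
    rcases rv_mem t ξ with h | h
    · rw [h]
      exact Nat.zero_le _
    · exact hq _ h
  · intro y c
    have h := msg_eq a₀ t y (ht t) [] (Or.inr (by rw [sub_nil])) c
    rw [sub_nil] at h
    exact h
  · show (sub t []).rank = t.rank
    rw [sub_nil]
  · intro ξ b
    show (sub t (ξ ++ [b])).rank ≤ (sub t ξ).rank
    rw [sub_append]
    exact rank_sub _ b
  · intro ξ
    show (sub t ξ).rank = 0 ∨ (sub t (ξ ++ [false])).rank < (sub t ξ).rank ∨
      (sub t (ξ ++ [true])).rank < (sub t ξ).rank
    rw [sub_append, sub_append]
    exact rank_lt _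
  · intro ξ h
    exact rank_zero _ h

end Pool.Agent.TRN.H19
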